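import Pool.Agent.H44.DG.Targets

/-! Module LMP: what a label move preserves on the label side. -/

namespace Pool.Agent.H3.DG.LMP

open Pool.Agent.H44.DG

lemma tags_cons_E (w : Cycle ℕ) (G : LF) : tags ((Tag.E, w) ::ₘ G) = tags G := by
  unfold tags
  exact Multiset.filterMap_cons_none _ _ rfl

lemma tags_cons_R (k : ℕ) (w : Cycle ℕ) (G : LF) : tags ((Tag.R k, w) ::ₘ G) = tags G := by
  unfold tags
  exact Multiset.filterMap_cons_none _ _ rfl

lemma step_mono {L L' : LF} (h1 : ∀ i j, LAdj L i j → LAdj L' i j)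
    (h2 : ∀ i w, (Tag.T i, w) ∈ L' ↔ (Tag.T i, w) ∈ L) {x y : ℕ} {o : Option ℕ} (h : StepOK L x o y) :
    StepOK L' x o y := by
  cases o with
  | none => exact h1 _ _ h
  | some i =>
    obtain ⟨hxy, ⟨t, w⟩, ht, e, hx, hy⟩ := h
    simp only at e
    subst e
    exact ⟨hxy, (Tag.T i, w), (h2 i w).2 ht, rfl, hx, hy⟩

lemma chain_mono {L L' : LF} (h1 : ∀ i j, LAdj L i j → LAdj L' i j)
    (h2 : ∀ i w, (Tag.T i, w) ∈ L' ↔ (Tag.T i, w) ∈ L) (l : List (Option ℕ × ℕ)) :
    ∀ x : ℕ, ChainOK L x l → ChainOK L' x l := by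
  induction l with
  | nil => intro x _; trivial
  | cons p l ih =>
    intro x h
    exact ⟨step_mono h1 h2 h.1, ih _ h.2⟩

lemma pathOK_mono {n : ℕ} {L L' : LF} (h0 : tags L' = tags L) (h1 : ∀ i j, LAdj L i j → LAdj L' i j)
    (h2 : ∀ i w, (Tag.T i, w) ∈ L' ↔ (Tag.T i, w) ∈ L) (h : PathOK n L) : PathOK n L' := by
  have key : ∀ A B, PathAB n L A B → PathAB n L' A B := by
    rintro A B ⟨q, o, hc, hp, ht⟩
    exact ⟨q, o, chain_mono h1 h2 _ _ hc, hp, by rw [h0]; exact ht⟩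
  exact ⟨key _ _ h.1, key _ _ h.2.1, key _ _ h.2.2⟩

theorem ladj_mono {L L' : LF} (h : LMove L L') (i j : ℕ) (hij : LAdj L i j) : LAdj L' i j := by
  have key : ∀ (t t' : Tag) (u v : ℕ) (l m : List ℕ) (G : LF),
      LAdj ((t, (↑(u :: (l ++ v :: m)) : Cycle ℕ)) ::ₘ G) i j →
      LAdj ((t, (↑(u :: (l ++ [v])) : Cycle ℕ)) ::ₘ (t', (↑(v :: (m ++ [u])) : Cycle ℕ)) ::ₘ G) i j := by
    rintro t t' u v l m G ⟨x, hx, hd⟩
    rcases Multiset.mem_cons.1 hx with rfl | hx
    · have k2 : ∀ i j, (i, j) ∈ cdarts (↑(u :: (l ++ v :: m)) : Cycle ℕ) →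
          (i, j) ∈ cdarts (↑(u :: (l ++ [v])) : Cycle ℕ) ∨ (i, j) ∈ cdarts (↑(v :: (m ++ [u])) : Cycle ℕ) := by
        intro i j h
        rw [mem_cdarts, isDart_coe] at h
        rw [mem_cdarts, mem_cdarts, isDart_coe, isDart_coe]
        exact mem_cprs_split.2 (Or.inl h)
      rcases hd with hd | hd
      · rcases k2 _ _ hd with h | h
        · exact ⟨_, Multiset.mem_cons_self _ _, Or.inl h⟩
        · exact ⟨_, Multiset.mem_cons_of_mem (Multiset.mem_cons_self _ _), Or.inl h⟩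
      · rcases k2 _ _ hd with h | h
        · exact ⟨_, Multiset.mem_cons_self _ _, Or.inr h⟩
        · exact ⟨_, Multiset.mem_cons_of_mem (Multiset.mem_cons_self _ _), Or.inr h⟩
    · exact ⟨x, Multiset.mem_cons_of_mem (Multiset.mem_cons_of_mem hx), hd⟩
  cases h with
  | E u v l m G huv hn => exact key _ _ _ _ _ _ _ hij
  | R k u v l m G huv hn => exact key _ _ _ _ _ _ _ hij

theorem tags_eq {L L' : LF} (h : LMove L L') : tags L' = tags L := by
  cases h with
  | E u v l m G huv hn => rw [tags_cons_E, tags_cons_E, tags_cons_E]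
  | R k u v l m G huv hn => rw [tags_cons_R, tags_cons_E, tags_cons_R]

theorem lab_mem {L L' : LF} (h : LMove L L') : ∀ x ∈ L', ∀ i ∈ x.2, ∃ y ∈ L, i ∈ y.2 := by
  have key : ∀ (t t' : Tag) (u v : ℕ) (l m : List ℕ) (G : LF),
      ∀ x ∈ ((t, (↑(u :: (l ++ [v])) : Cycle ℕ)) ::ₘ (t', (↑(v :: (m ++ [u])) : Cycle ℕ)) ::ₘ G : LF),
      ∀ i ∈ x.2, ∃ y ∈ ((t, (↑(u :: (l ++ v :: m)) : Cycle ℕ)) ::ₘ G : LF), i ∈ y.2 := by
    intro t t' u v l m G x hx i hi
    rcases Multiset.mem_cons.1 hx with rfl | hx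
    · refine ⟨_, Multiset.mem_cons_self _ _, ?_⟩
      simp only [Cycle.mem_coe_iff, List.mem_cons, List.mem_append, List.not_mem_nil, or_false] at hi ⊢
      tauto
    · rcases Multiset.mem_cons.1 hx with rfl | hx
      · refine ⟨_, Multiset.mem_cons_self _ _, ?_⟩
        simp only [Cycle.mem_coe_iff, List.mem_cons, List.mem_append, List.not_mem_nil, or_false] at hi ⊢
        tauto
      · exact ⟨x, Multiset.mem_cons_of_mem hx, hi⟩
  cases h with
  | E u v l m G huv hn => exact key _ _ _ _ _ _ _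
  | R k u v l m G huv hn => exact key _ _ _ _ _ _ _

theorem T_mem {L L' : LF} (h : LMove L L') (i : ℕ) (w : Cycle ℕ) : (Tag.T i, w) ∈ L' ↔ (Tag.T i, w) ∈ L := by
  cases h with
  | E u v l m G huv hn => simp [Multiset.mem_cons]
  | R k u v l m G huv hn => simp [Multiset.mem_cons]

theorem comp {L L' : LF} (h : LMove L L') (n : ℕ) (hc : CompOK n L) : CompOK n L' := by
  have hm := ladj_mono h
  have ht := tags_eq h
  have hT := T_mem h
  have hlab := lab_mem h
  refine ⟨hc.three, ?_, ?_, ?_, ⟨hm _ _ hc.sides.1, hm _ _ hc.sides.2.1, hm _ _ hc.sides.2.2⟩,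
    by rw [ht]; exact hc.nd, ?_⟩
  · have h0 := hc.noR
    cases h with
    | E u v l m G huv hn =>
      intro x hx k
      rcases Multiset.mem_cons.1 hx with rfl | hx
      · simp
      · rcases Multiset.mem_cons.1 hx with rfl | hx
        · simp
        · exact h0 x (Multiset.mem_cons_of_mem hx) k
    | R k u v l m G huv hn => exact absurd rfl (h0 _ (Multiset.mem_cons_self _ _) k)
  · intro x hx i hi
    obtain ⟨y, hy, hi⟩ := hlab x hx i hi
    exact hc.lab y hy i hi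
  · rintro ⟨t, w⟩ hx i e
    simp only at e
    subst e
    exact hc.tri _ ((hT i w).1 hx) i rfl
  · cases hc.rob with
    | path _ hp => exact Rob.path _ (pathOK_mono ht hm hT hp)
    | step _ _ h' => exact h' L' h

theorem pf_LMP : T_LMP := fun _ _ h => ⟨tags_eq h, ladj_mono h, lab_mem h, T_mem h, comp h⟩

end Pool.Agent.H3.DG.LMP
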