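import Pool.Agent.H3.DG.ADJ

/-! Module LMR: a label move is a step; what it preserves. -/

namespace Pool.Agent.H3.DG.LMR

open Pool.Agent.H44.DG


theorem pf_LMR : T_LMR := by
  intro V c N L L' h hm
  have hA := Pool.Agent.H3.DG.ADJ.pf_ADJ V c N L h
  cases hm with
  | E u v l m G huv hn =>
    set L : LF := (Tag.E, (↑(u :: (l ++ v :: m)) : Cycle ℕ)) ::ₘ G with hL
    have hu : u < N := h.lab (Tag.E, (↑(u :: (l ++ v :: m)) : Cycle ℕ)) (Multiset.mem_cons_self _ _) u (by simp)
    have hv : v < N := h.lab (Tag.E, (↑(u :: (l ++ v :: m)) : Cycle ℕ)) (Multiset.mem_cons_self _ _) v (by simp)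
    have hvs : vs c ((Tag.E, (↑(u :: (l ++ [v])) : Cycle ℕ)) ::ₘ (Tag.E, (↑(v :: (m ++ [u])) : Cycle ℕ)) ::ₘ G) =
        vs c L := by
      simp [vs, vs1, hL]
    refine ⟨?_, ?_, hvs⟩
    · refine ⟨c.f u, c.f v, fun e => huv (hA.2.1 u v hu hv e),
        fun e => hn ((hA.1 u v hu hv huv).1 e),
        (↑(c.f u :: (l.map c.f ++ c.f v :: m.map c.f)) : Cycle V) ::ₘ (0 + 0),
        {(↑(c.f u :: (l.map c.f ++ [c.f v])) : Cycle V) ::ₘ 0,
          (↑(c.f v :: (m.map c.f ++ [c.f u])) : Cycle V) ::ₘ 0}, real c G, ?_, ?_,
        RegionMove.split _ _ _ _⟩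
      · simp [real, real1, hL]
      · simp [real, real1]
        rw [Multiset.cons_swap]
    · refine ⟨?_, ?_, ?_, ?_, ?_⟩
      · rw [hvs]; exact h.nodup
      · intro x hx i hi
        have hw := h.lab (Tag.E, (↑(u :: (l ++ v :: m)) : Cycle ℕ)) (Multiset.mem_cons_self _ _)
        simp only [Cycle.mem_coe_iff, List.mem_cons, List.mem_append] at hw
        rcases Multiset.mem_cons.1 hx with rfl | hx
        · simp only [Cycle.mem_coe_iff, List.mem_cons, List.mem_append, List.not_mem_nil, or_false] at hi
          exact hw i (by tauto)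
        · rcases Multiset.mem_cons.1 hx with rfl | hx
          · simp only [Cycle.mem_coe_iff, List.mem_cons, List.mem_append, List.not_mem_nil, or_false] at hi
            exact hw i (by tauto)
          · exact h.lab x (Multiset.mem_cons_of_mem hx) i hi
      · intro x hx i hi
        rcases Multiset.mem_cons.1 hx with rfl | hx
        · simp at hi
        · rcases Multiset.mem_cons.1 hx with rfl | hx
          · simp at hi
          · exact h.tri x (Multiset.mem_cons_of_mem hx) i hi
      · intro i w hx
        refine h.tloc i w ?_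
        rcases Multiset.mem_cons.1 hx with e | hx
        · simp at e
        · rcases Multiset.mem_cons.1 hx with e | hx
          · simp at e
          · exact Multiset.mem_cons_of_mem hx
      · intro k w hx
        refine h.rloc k w ?_
        rcases Multiset.mem_cons.1 hx with e | hx
        · simp at e
        · rcases Multiset.mem_cons.1 hx with e | hx
          · simp at e
          · exact Multiset.mem_cons_of_mem hx
  | R k u v l m G huv hn =>
    set L : LF := (Tag.R k, (↑(u :: (l ++ v :: m)) : Cycle ℕ)) ::ₘ G with hL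
    have hu : u < N := h.lab (Tag.R k, (↑(u :: (l ++ v :: m)) : Cycle ℕ)) (Multiset.mem_cons_self _ _) u (by simp)
    have hv : v < N := h.lab (Tag.R k, (↑(u :: (l ++ v :: m)) : Cycle ℕ)) (Multiset.mem_cons_self _ _) v (by simp)
    have hvs : vs c ((Tag.R k, (↑(u :: (l ++ [v])) : Cycle ℕ)) ::ₘ (Tag.E, (↑(v :: (m ++ [u])) : Cycle ℕ)) ::ₘ G) =
        vs c L := by
      simp [vs, vs1, hL]
    refine ⟨?_, ?_, hvs⟩
    · refine ⟨c.f u, c.f v, fun e => huv (hA.2.1 u v hu hv e),
        fun e => hn ((hA.1 u v hu hv huv).1 e),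
        (↑(c.f u :: (l.map c.f ++ c.f v :: m.map c.f)) : Cycle V) ::ₘ (c.FL k + 0),
        {(↑(c.f u :: (l.map c.f ++ [c.f v])) : Cycle V) ::ₘ c.FL k,
          (↑(c.f v :: (m.map c.f ++ [c.f u])) : Cycle V) ::ₘ 0}, c.FI k + real c G, ?_, ?_,
        RegionMove.split _ _ _ _⟩
      · simp [real, real1, hL]
      · have e : real c ((Tag.R k, (↑(u :: (l ++ [v])) : Cycle ℕ)) ::ₘ (Tag.E, (↑(v :: (m ++ [u])) : Cycle ℕ)) ::ₘ G) =
            ((↑(c.f u :: (l.map c.f ++ [c.f v])) : Cycle V) ::ₘ c.FL k) ::ₘ
              (c.FI k + (((↑(c.f v :: (m.map c.f ++ [c.f u])) : Cycle V) ::ₘ 0) ::ₘ real c G)) := by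
          simp [real, real1]
          rw [Multiset.cons_swap]
        rw [e, Multiset.add_cons, Multiset.insert_eq_cons, Multiset.cons_add, Multiset.singleton_add]
    · refine ⟨?_, ?_, ?_, ?_, ?_⟩
      · rw [hvs]; exact h.nodup
      · intro x hx i hi
        have hw := h.lab (Tag.R k, (↑(u :: (l ++ v :: m)) : Cycle ℕ)) (Multiset.mem_cons_self _ _)
        simp only [Cycle.mem_coe_iff, List.mem_cons, List.mem_append] at hw
        rcases Multiset.mem_cons.1 hx with rfl | hx
        · simp only [Cycle.mem_coe_iff, List.mem_cons, List.mem_append, List.not_mem_nil, or_false] at hi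
          exact hw i (by tauto)
        · rcases Multiset.mem_cons.1 hx with rfl | hx
          · simp only [Cycle.mem_coe_iff, List.mem_cons, List.mem_append, List.not_mem_nil, or_false] at hi
            exact hw i (by tauto)
          · exact h.lab x (Multiset.mem_cons_of_mem hx) i hi
      · intro x hx i hi
        rcases Multiset.mem_cons.1 hx with rfl | hx
        · simp at hi
        · rcases Multiset.mem_cons.1 hx with rfl | hx
          · simp at hi
          · exact h.tri x (Multiset.mem_cons_of_mem hx) i hi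
      · intro i w hx
        refine h.tloc i w ?_
        rcases Multiset.mem_cons.1 hx with e | hx
        · simp at e
        · rcases Multiset.mem_cons.1 hx with e | hx
          · simp at e
          · exact Multiset.mem_cons_of_mem hx
      · intro k' w hx
        rcases Multiset.mem_cons.1 hx with e | hx
        · simp only [Prod.mk.injEq, Tag.R.injEq] at e
          rw [e.1]
          exact h.rloc k _ (Multiset.mem_cons_self _ _)
        · rcases Multiset.mem_cons.1 hx with e | hx
          · simp at e
          · exact h.rloc k' w (Multiset.mem_cons_of_mem hx)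

end Pool.Agent.H3.DG.LMR
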