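import Pool.Agent.H44.DG.Targets

/-! Module ADJ: adjacency and corners of a realised picture. -/

namespace Pool.Agent.H3.DG.ADJ

open Pool.Agent.H44.DG

variable {V W : Type*}

lemma prs_map (f : V → W) (l : List V) : prs (l.map f) = (prs l).map (Prod.map f f) := by
  induction l with
  | nil => simp
  | cons a l ih =>
    cases l with
    | nil => simp
    | cons b l =>
      simp only [List.map_cons, prs_cons_cons] at ih ⊢
      rw [ih]
      simp

lemma cprs_map (f : V → W) (l : List V) : cprs (l.map f) = (cprs l).map (Prod.map f f) := by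
  rcases l with _ | ⟨a, _ | ⟨b, l⟩⟩
  · simp
  · simp
  · simp only [List.map_cons, cprs_cons_cons]
    rw [← prs_map]
    simp

lemma isDart_map (f : V → W) (w : Cycle V) (a b : W) :
    IsDart (w.map f) a b ↔ ∃ i j, IsDart w i j ∧ a = f i ∧ b = f j := by
  induction w using Quotient.inductionOn with
  | _ l =>
    show IsDart (↑(l.map f) : Cycle W) a b ↔ ∃ i j, IsDart (↑l : Cycle V) i j ∧ a = f i ∧ b = f j
    rw [isDart_coe, cprs_map, List.mem_map]
    constructor
    · rintro ⟨⟨i, j⟩, h, h2⟩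
      simp only [Prod.map_apply, Prod.mk.injEq] at h2
      exact ⟨i, j, isDart_coe.2 h, h2.1.symm, h2.2.symm⟩
    · rintro ⟨i, j, h, rfl, rfl⟩
      exact ⟨(i, j), isDart_coe.1 h, rfl⟩

lemma mem_map' (f : V → W) (w : Cycle V) (a : W) : a ∈ w.map f ↔ ∃ i ∈ w, f i = a := by
  induction w using Quotient.inductionOn with
  | _ l =>
    show a ∈ (↑(l.map f) : Cycle W) ↔ ∃ i ∈ (↑l : Cycle V), f i = a
    simp [Cycle.mem_coe_iff]

lemma inR_real (c : Ctx V) (L : LF) (v : V) : InR (real c L) v ↔ ∃ x ∈ L, InR (real1 c x) v := by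
  unfold InR real
  constructor
  · rintro ⟨Φ, hΦ, h⟩
    obtain ⟨x, hx, hx2⟩ := Multiset.mem_bind.1 hΦ
    exact ⟨x, hx, Φ, hx2, h⟩
  · rintro ⟨x, hx, Φ, hΦ, h⟩
    exact ⟨Φ, Multiset.mem_bind.2 ⟨x, hx, hΦ⟩, h⟩

lemma adj_real (c : Ctx V) (L : LF) (a b : V) : Adj (real c L) a b ↔ ∃ x ∈ L, Adj (real1 c x) a b := by
  unfold Adj real
  constructor
  · rintro ⟨Φ, hΦ, h⟩
    obtain ⟨x, hx, hx2⟩ := Multiset.mem_bind.1 hΦ
    exact ⟨x, hx, Φ, hx2, h⟩
  · rintro ⟨x, hx, Φ, hΦ, h⟩
    exact ⟨Φ, Multiset.mem_bind.2 ⟨x, hx, hΦ⟩, h⟩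

section
variable {c : Ctx V} {N : ℕ} {L : LF}

lemma inj (h : COK c N L) {i j : ℕ} (hi : i < N) (hj : j < N) (hij : c.f i = c.f j) : i = j := by
  have h1 := (Multiset.nodup_add.1 h.nodup).1
  have h2 : ((List.range N).map c.f).Nodup := Multiset.coe_nodup.1 h1
  exact List.inj_on_of_nodup_map h2 (List.mem_range.2 hi) (List.mem_range.2 hj) hij

lemma notMem (h : COK c N L) {i : ℕ} (hi : i < N) : c.f i ∉ vs c L := by
  have h1 := (Multiset.nodup_add.1 h.nodup).2.2
  intro h2
  exact Multiset.disjoint_left.1 h1 (Multiset.mem_coe.2 (List.mem_map.2 ⟨i, List.mem_range.2 hi, rfl⟩)) h2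

lemma mem_vs {x : Tag × Cycle ℕ} (hx : x ∈ L) {v : V} (hv : v ∈ vs1 c x) : v ∈ vs c L :=
  Multiset.mem_bind.2 ⟨x, hx, hv⟩

/-- corners of one face -/
lemma inR_real1 (h : COK c N L) {x : Tag × Cycle ℕ} (hx : x ∈ L) {v : V} (hv : InR (real1 c x) v) :
    (∃ i ∈ x.2, c.f i = v) ∨ v ∈ vs1 c x := by
  obtain ⟨t, w⟩ := x
  cases t with
  | E =>
    simp only [real1, inR_sing, Multiset.mem_singleton, exists_eq_left] at hv
    exact Or.inl ((mem_map' _ _ _).1 hv)
  | R k =>
    have hr := h.rloc k w hx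
    simp only [real1] at hv
    rw [inR_cons] at hv
    rcases hv with hv | hv
    · rw [inR_sing] at hv
      obtain ⟨u, hu, hv⟩ := hv
      rcases Multiset.mem_cons.1 hu with rfl | hu
      · exact Or.inl ((mem_map' _ _ _).1 hv)
      · exact Or.inr (hr.1 u hu v hv)
    · exact Or.inr (hr.2 v hv)
  | T i =>
    rcases (h.tloc i w hx).1 v hv with h1 | h1
    · exact Or.inl ((mem_map' _ _ _).1 h1)
    · exact Or.inr h1

lemma tri_adj {w : Cycle ℕ} (hw : Tri3 w) {i j : ℕ} (hi : i ∈ w) (hj : j ∈ w) (hij : i ≠ j) :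
    (i, j) ∈ cdarts w ∨ (j, i) ∈ cdarts w := by
  obtain ⟨a, b, d, hab, hbd, hda, rfl⟩ := hw
  rw [Cycle.mem_coe_iff] at hi hj
  simp only [List.mem_cons, List.not_mem_nil, or_false] at hi hj
  rw [mem_cdarts, mem_cdarts, isDart_coe, isDart_coe]
  rcases hi with rfl | rfl | rfl <;> rcases hj with rfl | rfl | rfl <;>
    simp_all [cprs_cons_cons]

end

theorem pf_ADJ : T_ADJ := by
  intro V c N L h
  refine ⟨?_, fun i j hi hj => inj h hi hj, ?_, ?_⟩
  · intro i j hi hj hij
    rw [adj_real]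
    constructor
    · rintro ⟨x, hx, hadj⟩
      refine ⟨x, hx, ?_⟩
      -- a dart of the mapped walk
      have key : ∀ w : Cycle ℕ, (∀ i ∈ w, i < N) →
          (IsDart (w.map c.f) (c.f i) (c.f j) ∨ IsDart (w.map c.f) (c.f j) (c.f i)) →
          (i, j) ∈ cdarts w ∨ (j, i) ∈ cdarts w := by
        intro w hw hd
        have key2 : ∀ i j, i < N → j < N → IsDart (w.map c.f) (c.f i) (c.f j) → (i, j) ∈ cdarts w := by
          intro i j hi hj hd
          obtain ⟨i', j', hd', h1, h2⟩ := (isDart_map _ _ _ _).1 hd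
          have e1 := inj h hi (hw _ hd'.mem_left) h1
          have e2 := inj h hj (hw _ hd'.mem_right) h2
          rw [e1, e2]
          exact mem_cdarts.2 hd'
        exact hd.imp (key2 i j hi hj) (key2 j i hj hi)
      obtain ⟨t, w⟩ := x
      have hw := h.lab _ hx
      cases t with
      | E =>
        simp only [real1, adj_sing, Multiset.mem_singleton, exists_eq_left] at hadj
        exact key w hw hadj
      | R k =>
        have hr := h.rloc k w hx
        simp only [real1] at hadj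
        rw [adj_cons] at hadj
        rcases hadj with hadj | hadj
        · rw [adj_sing] at hadj
          obtain ⟨u, hu, hd⟩ := hadj
          rcases Multiset.mem_cons.1 hu with rfl | hu
          · exact key w hw hd
          · exfalso
            have h1 : c.f i ∈ u := hd.elim IsDart.mem_left IsDart.mem_right
            exact notMem h hi (mem_vs hx (hr.1 u hu _ h1))
        · exfalso
          exact notMem h hi (mem_vs hx (hr.2 _ hadj.left))
      | T k =>
        have h1 := inR_real1 h hx hadj.left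
        have h2 := inR_real1 h hx hadj.right
        rcases h1 with ⟨i', hi', e1⟩ | h1
        · rcases h2 with ⟨j', hj', e2⟩ | h2
          · have e1 := inj h (hw _ hi') hi e1
            have e2 := inj h (hw _ hj') hj e2
            subst e1 e2
            exact tri_adj (h.tri _ hx k rfl) hi' hj' hij
          · exact absurd (mem_vs hx h2) (notMem h hj)
        · exact absurd (mem_vs hx h1) (notMem h hi)
    · rintro ⟨x, hx, hd⟩
      refine ⟨x, hx, ?_⟩
      have hmap : IsDart (x.2.map c.f) (c.f i) (c.f j) ∨ IsDart (x.2.map c.f) (c.f j) (c.f i) := by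
        rcases hd with hd | hd
        · exact Or.inl ((isDart_map _ _ _ _).2 ⟨i, j, mem_cdarts.1 hd, rfl, rfl⟩)
        · exact Or.inr ((isDart_map _ _ _ _).2 ⟨j, i, mem_cdarts.1 hd, rfl, rfl⟩)
      obtain ⟨t, w⟩ := x
      cases t with
      | E => exact ⟨_, Multiset.mem_singleton_self _, _, Multiset.mem_singleton_self _, hmap⟩
      | R k => exact ⟨_, Multiset.mem_cons_self _ _, _, Multiset.mem_cons_self _ _, hmap⟩
      | T k =>
        have hl := (h.tloc k w hx).2
        have h1 : c.f i ∈ w.map c.f := hmap.elim IsDart.mem_left IsDart.mem_right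
        have h2 : c.f j ∈ w.map c.f := hmap.elim IsDart.mem_right IsDart.mem_left
        exact hl _ _ h1 h2 (fun e => hij (inj h hi hj e))
  · intro v hv
    obtain ⟨x, hx, hv⟩ := (inR_real _ _ _).1 hv
    rcases inR_real1 h hx hv with ⟨i, hi, e⟩ | h1
    · exact Or.inl ⟨i, h.lab _ hx _ hi, e.symm⟩
    · exact Or.inr (mem_vs hx h1)
  · intro x L₀ hL v hv
    have hx : x ∈ L := hL ▸ Multiset.mem_cons_self _ _
    have hlab : ∀ i < N, c.f i ≠ v := by
      rintro i hi rfl
      exact notMem h hi (mem_vs hx hv)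
    refine ⟨?_, hlab⟩
    intro hin
    obtain ⟨y, hy, hv2⟩ := (inR_real _ _ _).1 hin
    have hyL : y ∈ L := hL ▸ Multiset.mem_cons_of_mem hy
    rcases inR_real1 h hyL hv2 with ⟨i, hi, e⟩ | h1
    · exact hlab i (h.lab _ hyL _ hi) e
    · have h2 := (Multiset.nodup_add.1 h.nodup).2.1
      have h3 : vs c L = vs1 c x + vs c L₀ := by
        rw [hL]; exact Multiset.cons_bind _ _ _
      rw [h3] at h2
      exact Multiset.disjoint_left.1 (Multiset.nodup_add.1 h2).2.2 hv (mem_vs hy h1)

end Pool.Agent.H3.DG.ADJ
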